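import Pool.Agent.Lib_MP_89920a_ins.Weak
import Pool.Agent.Lib_MP_89920a_ins.Banach

/-!
MP_89920a_gt, Q1: every compact space which is splittable over the class of Eberlein compact spaces
is Eberlein compact, with the definitions of the problem file (weakly compact subsets of Banach
spaces) and in all universes.
-/

set_option autoImplicit false

namespace Pool.Agent.Results.MP_89920a_gt.SplittableIsEberlein

open scoped ZeroAtInfty

universe u v w

/-- Eberlein compact: homeomorphic to a subset `K` of a real Banach space `E` that is compact in the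
weak topology of `E`. -/
def IsEberleinCompact (X : Type u) [TopologicalSpace X] : Prop :=
  ∃ (E : Type w) (_ : NormedAddCommGroup E) (_ : NormedSpace ℝ E) (_ : CompleteSpace E)
    (K : Set (WeakSpace ℝ E)), IsCompact K ∧ Nonempty (X ≃ₜ K)

/-- `X` is splittable over the class of the Eberlein compact spaces: for every subset `A` of `X`
there are an Eberlein compact space `Y` and a continuous map `f : X → Y` with `f⁻¹(f(A)) = A`. -/
def SplittableOverEberlein (X : Type u) [TopologicalSpace X] : Prop :=
  ∀ A : Set X, ∃ (Y : Type v) (_ : TopologicalSpace Y) (f : X → Y),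
    IsEberleinCompact.{v, w} Y ∧ Continuous f ∧ f ⁻¹' (f '' A) = A

/-- Every compact Hausdorff space which is splittable over the class of Eberlein compact spaces is
Eberlein compact. -/
theorem result (X : Type u) [TopologicalSpace X] [CompactSpace X] [T2Space X]
    (h : SplittableOverEberlein.{u, v, w} X) : IsEberleinCompact.{u, v} X := by
  have hX : Lib_MP_89920a_ins.Splits.{u, v} X := by
    intro A
    obtain ⟨Y, _, f, ⟨E, _, _, _, K, hK, ⟨φ⟩⟩, hf, hfA⟩ := h A
    have : CompactSpace K := isCompact_iff_compactSpace.1 hK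
    have : CompactSpace Y := φ.symm.compactSpace
    have : T2Space Y := φ.symm.t2Space
    obtain ⟨Γ, g, hg, hgi, hg1, hg0⟩ := Lib_MP_89920a_ins.AL.c0_of_weak
      (fun y : Y => ((φ y : K) : WeakSpace ℝ E)) (continuous_subtype_val.comp φ.continuous)
      (Subtype.val_injective.comp φ.injective)
    refine ⟨Γ, fun x => g (f x), ⟨hg.comp hf, fun x γ => hg1 _ _, fun x => hg0 _⟩, ?_⟩
    intro x y hxy hx
    have h1 : f x = f y := hgi hxy
    have h2 : y ∈ f ⁻¹' (f '' A) := ⟨x, hx, h1⟩
    rwa [hfA] at h2
  obtain ⟨Γ, g, hg, hinj⟩ := Lib_MP_89920a_ins.main hX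
  let : TopologicalSpace Γ := ⊥
  have : DiscreteTopology Γ := ⟨rfl⟩
  obtain ⟨K, hK, hK2⟩ := Lib_MP_89920a_ins.exists_weaklyCompact hg hinj
  exact ⟨C₀(Γ, ℝ), inferInstance, inferInstance, inferInstance, K, hK, hK2⟩

end Pool.Agent.Results.MP_89920a_gt.SplittableIsEberlein
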